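import Pool.Agent.Helper10.BD.Goals

/-!
PROJECT BD, packet MBA (helper13): algebra of the Moebius map.
-/

set_option autoImplicit false

namespace Pool.Agent.Helper13.BD.MBA

theorem part1 (m μ u τ : ℝ) (hm : 0 < m) (h : m ^ 2 * u = 1 - μ * (1 - u))
    (hq : 1 + (μ - m ^ 2) / (m * (1 + m)) * τ ≠ 0) :
    m ^ 2 * u - (μ / m * τ / (1 + (μ - m ^ 2) / (m * (1 + m)) * τ) - 1) ^ 2 =
      μ * (u - (τ - 1) ^ 2) / (1 + (μ - m ^ 2) / (m * (1 + m)) * τ) ^ 2 := by
  have hm0 : m ≠ 0 := hm.ne'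
  have hm1 : 1 + m ≠ 0 := by positivity
  set q := 1 + (μ - m ^ 2) / (m * (1 + m)) * τ with hqd
  have hM : m * (1 + m) * q = m * (1 + m) + (μ - m ^ 2) * τ := by
    rw [hqd]
    field_simp
  rw [eq_div_iff (pow_ne_zero 2 hq)]
  have e1 : (m ^ 2 * u - (μ / m * τ / q - 1) ^ 2) * q ^ 2 = m ^ 2 * u * q ^ 2 - (μ / m * τ - q) ^ 2 := by
    field_simp
  rw [e1]
  have e2 : m * (1 + m) * (μ / m * τ - q) = m * ((μ + m) * τ - (1 + m)) := by
    rw [mul_sub, hM]
    field_simp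
    ring
  have key : u * (m * (1 + m) + (μ - m ^ 2) * τ) ^ 2 - ((μ + m) * τ - (1 + m)) ^ 2 =
      μ * (1 + m) ^ 2 * (u - (τ - 1) ^ 2) := by
    linear_combination ((1 + m) ^ 2 - 2 * m * (1 + m) * τ + (m ^ 2 - μ) * τ ^ 2) * h
  have hne : (m * (1 + m)) ^ 2 ≠ 0 := pow_ne_zero 2 (mul_ne_zero hm0 hm1)
  apply mul_left_cancel₀ hne
  have e3 : (m * (1 + m)) ^ 2 * (m ^ 2 * u * q ^ 2 - (μ / m * τ - q) ^ 2) =
      m ^ 2 * u * (m * (1 + m) * q) ^ 2 - (m * (1 + m) * (μ / m * τ - q)) ^ 2 := by ring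
  rw [e3, hM, e2]
  linear_combination m ^ 2 * key

theorem part2 (m μ u τ : ℝ) (hm : 0 < m) (hμ : 0 < μ) (h : m ^ 2 * u = 1 - μ * (1 - u))
    (h0 : 0 ≤ τ) (hu : (τ - 1) ^ 2 ≤ u) : 0 < 1 + (μ - m ^ 2) / (m * (1 + m)) * τ := by
  have hm1 : 0 < m * (1 + m) := by positivity
  have e : 1 + (μ - m ^ 2) / (m * (1 + m)) * τ = (m + m ^ 2 * (1 - τ) + μ * τ) / (m * (1 + m)) := by
    field_simp
    ring
  rw [e]
  refine div_pos ?_ hm1
  by_cases h1 : τ ≤ 1
  · have a1 : 0 ≤ m ^ 2 * (1 - τ) := mul_nonneg (sq_nonneg m) (by linarith)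
    have a2 : 0 ≤ μ * τ := mul_nonneg hμ.le h0
    linarith
  · push Not at h1
    by_cases h2 : m ^ 2 * u ≤ 1
    · have a1 : (m * (τ - 1)) ^ 2 ≤ 1 := by
        have : m ^ 2 * (τ - 1) ^ 2 ≤ m ^ 2 * u := mul_le_mul_of_nonneg_left hu (sq_nonneg m)
        rw [mul_pow]
        linarith
      have a2 : m * (τ - 1) ≤ 1 := by
        have := abs_le_of_sq_le_sq' (a := m * (τ - 1)) (b := 1) (by rw [one_pow]; exact a1) zero_le_one
        exact this.2
      have a3 : m * (m * (τ - 1)) ≤ m * 1 := mul_le_mul_of_nonneg_left a2 hm.le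
      have a4 : 0 < μ * τ := mul_pos hμ (by linarith)
      nlinarith
    · push Not at h2
      have hu1 : 1 < u := by
        by_contra hc
        push Not at hc
        have : 0 ≤ μ * (1 - u) := mul_nonneg hμ.le (by linarith)
        linarith
      have hu2 : 0 < u - 1 := by linarith
      have key : (u - 1) * (m + m ^ 2 * (1 - τ) + μ * τ) = (m + m ^ 2) * (u - 1) + τ * (m ^ 2 - 1) := by
        linear_combination (-τ) * h
      have pos : 0 < (m + m ^ 2) * (u - 1) + τ * (m ^ 2 - 1) := by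
        by_cases h3 : 1 ≤ m
        · have a1 : 0 < (m + m ^ 2) * (u - 1) := mul_pos (by positivity) hu2
          have a2 : 0 ≤ τ * (m ^ 2 - 1) := mul_nonneg h0 (by nlinarith)
          linarith
        · push Not at h3
          have hs0 : 0 ≤ u := by linarith
          obtain ⟨σ, hσ, hσ0⟩ : ∃ σ : ℝ, σ ^ 2 = u ∧ 0 ≤ σ := ⟨Real.sqrt u, Real.sq_sqrt hs0, Real.sqrt_nonneg u⟩
          have b1 : 1 < m * σ := by
            by_contra hc
            push Not at hc
            have b0 : 0 ≤ m * σ := mul_nonneg hm.le hσ0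
            have : (m * σ) ^ 2 ≤ 1 := by nlinarith
            rw [mul_pow, hσ] at this
            linarith
          have b2 : τ - 1 ≤ σ := by
            have := abs_le_of_sq_le_sq' (a := τ - 1) (b := σ) (by rw [hσ]; exact hu) hσ0
            exact this.2
          have b3 : τ * (m ^ 2 - 1) ≥ (1 + σ) * (m ^ 2 - 1) := by
            have : m ^ 2 - 1 ≤ 0 := by nlinarith
            nlinarith
          have b4 : 0 < (1 + σ) * (1 + m) * (m * σ - 1) := by
            refine mul_pos (mul_pos (by linarith) (by linarith)) (by linarith)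
          have b5 : (m + m ^ 2) * (u - 1) + (1 + σ) * (m ^ 2 - 1) = (1 + σ) * (1 + m) * (m * σ - 1) := by
            rw [← hσ]
            ring
          linarith
      rw [← key] at pos
      exact (mul_pos_iff_of_pos_left hu2).mp pos

/-- packet MBA -/
theorem t : Pool.Agent.Helper10.BD.G_MBA := by
  intro m μ u τ hm hμ h
  exact ⟨part1 m μ u τ hm h, part2 m μ u τ hm hμ h⟩

end Pool.Agent.Helper13.BD.MBA
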